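import Pool.Agent.Q295.Thr.Law

/-!
# The percolation threshold of every infinite countable group is one

For a generating measure `μ` on the group `Γ` the number of the parallel edges which join `g` and `h` is
Poisson with mean `lam * μ (g⁻¹ * h)`, independently for all pairs.  `lambdaC μ` is the supremum of the
`lam > 0` for which almost surely there is no infinite connected component, and `threshold Γ` is the infimum
of `lambdaC μ` over all generating measures.
-/

set_option autoImplicit false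

namespace Pool.Agent.Results.MP_da416c_pr.ThresholdOne

open MeasureTheory ProbabilityTheory
open scoped NNReal ENNReal

/-- a symmetric probability measure whose support generates the group -/
structure GeneratingMeasure (Γ : Type*) [Group Γ] where
  mass : Γ → ℝ≥0
  hasSum : HasSum mass 1
  symm : ∀ g, mass g⁻¹ = mass g
  generates : Subgroup.closure {g : Γ | mass g ≠ 0} = ⊤

variable {Γ : Type*} [Group Γ]

/-- the mean number of the edges which join `g` and `h` is `lam * μ (g⁻¹ * h)` -/
noncomputable def rate (μ : GeneratingMeasure Γ) (lam : ℝ≥0) : Sym2 Γ → ℝ≥0 :=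
  Sym2.lift ⟨fun g h => lam * μ.mass (g⁻¹ * h), fun g h => by
    show lam * μ.mass (g⁻¹ * h) = lam * μ.mass (h⁻¹ * g)
    rw [← μ.symm (g⁻¹ * h), mul_inv_rev, inv_inv]⟩

/-- the law of the multiplicities: independent Poisson numbers -/
noncomputable def law (μ : GeneratingMeasure Γ) (lam : ℝ≥0) : Measure (Sym2 Γ → ℕ) :=
  Measure.infinitePi (fun e => poissonMeasure (rate μ lam e))

/-- the graph: two different elements are adjacent when at least one edge joins them -/
def graph (ω : Sym2 Γ → ℕ) : SimpleGraph Γ where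
  Adj g h := g ≠ h ∧ ω s(g, h) ≠ 0
  symm := ⟨fun g h hgh => ⟨hgh.1.symm, by rw [Sym2.eq_swap]; exact hgh.2⟩⟩
  loopless := ⟨fun g hg => hg.1 rfl⟩

/-- there is an infinite connected component -/
def Percolates (ω : Sym2 Γ → ℕ) : Prop := ∃ g : Γ, {h | (graph ω).Reachable g h}.Infinite

/-- the threshold of a generating measure -/
noncomputable def lambdaC (μ : GeneratingMeasure Γ) : ℝ≥0∞ :=
  ⨆ (lam : ℝ≥0) (_ : 0 < lam ∧ law μ lam {ω | Percolates ω} = 0), (lam : ℝ≥0∞)

/-- the percolation threshold of the group -/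
noncomputable def threshold (Γ : Type*) [Group Γ] : ℝ≥0∞ := ⨅ μ : GeneratingMeasure Γ, lambdaC μ

omit [Group Γ] in
theorem percolates_iff (ω : Sym2 Γ → ℕ) :
    Percolates ω ↔ ∃ g, (Q295.Thr.Cf (Q295.Thr.opn ω) g).Infinite := by
  unfold Percolates
  have h1 : ∀ g, {h | (graph ω).Reachable g h} = Q295.Thr.Cf (Q295.Thr.opn ω) g := by
    intro g
    ext h
    constructor
    · intro hr
      have hr' : (graph ω).Reachable g h := hr
      rw [SimpleGraph.reachable_iff_reflTransGen] at hr'
      refine Relation.ReflTransGen.mono (fun a b hab => ?_) _ _ hr'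
      have h2 : a ≠ b ∧ ω s(a, b) ≠ 0 := hab
      show decide (ω s(a, b) ≠ 0) = true
      simpa using h2.2
    · intro hr
      show (graph ω).Reachable g h
      have hr' : Relation.ReflTransGen (fun a b => Q295.Thr.opn ω s(a, b) = true) g h := hr
      induction hr' with
      | refl => exact SimpleGraph.Reachable.refl _
      | @tail a b hga hab ih =>
        have ih' := ih hga
        by_cases hne : a = b
        · rw [← hne]; exact ih'
        · refine ih'.trans (SimpleGraph.Adj.reachable ?_)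
          have h3 : decide (ω s(a, b) ≠ 0) = true := hab
          exact ⟨hne, by simpa using h3⟩
  simp only [h1]

theorem law_perc (μ : GeneratingMeasure Γ) (lam : ℝ≥0) :
    law μ lam {ω | Percolates ω} =
      law μ lam (Q295.Thr.opn ⁻¹' {ω | ∃ g, (Q295.Thr.Cf ω g).Infinite}) := by
  congr 1
  ext ω
  exact percolates_iff ω

theorem one_le [Countable Γ] (μ : GeneratingMeasure Γ) : 1 ≤ lambdaC μ := by
  apply le_of_forall_lt
  intro c hc
  have hc' : c ≠ ⊤ := (hc.trans ENNReal.one_lt_top).ne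
  lift c to ℝ≥0 using hc'
  have hc1 : c < 1 := by exact_mod_cast hc
  set lam : ℝ≥0 := (c + 1) / 2 with hlam
  have hl1 : lam < 1 := by
    rw [← NNReal.coe_lt_coe, hlam]
    push_cast
    have : (c : ℝ) < 1 := by exact_mod_cast hc1
    linarith
  have hl2 : c < lam := by
    rw [← NNReal.coe_lt_coe, hlam]
    push_cast
    have : (c : ℝ) < 1 := by exact_mod_cast hc1
    linarith
  have hl0 : 0 < lam := lt_of_le_of_lt (zero_le) hl2
  have h1 : law μ lam {ω | Percolates ω} = 0 := by
    rw [law_perc]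
    have hP := Q295.Thr.pois_ind (rate μ lam)
    have h2 := Q295.Thr.subcritical hP (lam := lam) (by exact_mod_cast hl1) ?_
    · refine le_antisymm ?_ zero_le
      rw [← h2]
      exact Measure.le_map_apply Q295.Thr.opn_meas.aemeasurable _
    · intro U v _
      have h3 : ∀ y, ((Q295.Thr.pois (rate μ lam)).map Q295.Thr.opn).real {ω | ω s(v, y) = true} ≤
          lam * μ.mass (v⁻¹ * y) := by
        intro y
        rw [Q295.Thr.pois_edge]
        have h4 : rate μ lam s(v, y) = lam * μ.mass (v⁻¹ * y) := rfl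
        rw [h4]
        push_cast
        have := Real.add_one_le_exp (-((lam : ℝ) * (μ.mass (v⁻¹ * y) : ℝ)))
        linarith
      refine (Finset.sum_le_sum (fun y _ => h3 y)).trans ?_
      rw [← Finset.mul_sum]
      have h5 : ∑ y ∈ U, (μ.mass (v⁻¹ * y) : ℝ) ≤ 1 := by
        have h6 : HasSum (fun g => (μ.mass g : ℝ)) ((1 : ℝ≥0) : ℝ) := NNReal.hasSum_coe.2 μ.hasSum
        rw [NNReal.coe_one] at h6
        have h7 : HasSum (fun y => (μ.mass (v⁻¹ * y) : ℝ)) 1 :=
          (Equiv.hasSum_iff (Equiv.mulLeft v⁻¹)).2 h6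
        exact sum_le_hasSum U (fun _ _ => NNReal.coe_nonneg _) h7
      calc (lam : ℝ) * ∑ y ∈ U, (μ.mass (v⁻¹ * y) : ℝ) ≤ lam * 1 :=
            mul_le_mul_of_nonneg_left h5 (NNReal.coe_nonneg _)
        _ = lam := mul_one _
  calc (c : ℝ≥0∞) < lam := by exact_mod_cast hl2
    _ ≤ lambdaC μ := by
        unfold lambdaC
        exact le_iSup₂_of_le lam ⟨hl0, h1⟩ le_rfl

/-- the measure with infinitely many scales -/
theorem exists_measure [Countable Γ] [Infinite Γ] {lam₀ : ℝ} (h0 : 1 < lam₀) :
    ∃ μ : GeneratingMeasure Γ, ∀ lam : ℝ≥0, lam₀ ≤ lam → law μ lam {ω | Percolates ω} ≠ 0 := by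
  classical
  obtain ⟨T, q, δ, hq, hδ, hT0, hTi, hTs, hT⟩ := Q295.Thr.exists_rates (Γ := Γ) h0
  obtain ⟨e, he⟩ := exists_injective_nat Γ
  have hgs : HasSum (fun n : ℕ => (1 / 2 : ℝ) ^ n) 2 := by
    have := hasSum_geometric_of_lt_one (r := (1 / 2 : ℝ)) (by norm_num) (by norm_num)
    norm_num at this ⊢
    exact this
  have hpow : ∀ F : Finset Γ, ∑ g ∈ F, (1 / 2 : ℝ) ^ (e g) ≤ 2 := by
    intro F
    rw [← Finset.sum_image (f := fun n => (1 / 2 : ℝ) ^ n) (fun a _ b _ hab => he hab)]
    exact sum_le_hasSum _ (fun _ _ => by positivity) hgs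
  set ρ : Γ → ℝ := fun g => δ / 4 * ((1 / 2) ^ (e g) + (1 / 2) ^ (e g⁻¹)) with hρ
  have hρ0 : ∀ g, 0 < ρ g := fun g => by positivity
  have hρi : ∀ g, ρ g⁻¹ = ρ g := fun g => by
    show δ / 4 * ((1 / 2) ^ (e g⁻¹) + (1 / 2) ^ (e g⁻¹⁻¹)) = _
    rw [inv_inv, add_comm]
  have hρs : ∀ F : Finset Γ, ∑ g ∈ F, ρ g ≤ δ := by
    intro F
    have h1 : ∑ g ∈ F, (1 / 2 : ℝ) ^ (e g⁻¹) ≤ 2 := by
      have := hpow (F.image (·⁻¹))
      rwa [Finset.sum_image (fun a _ b _ hab => inv_injective hab)] at this
    have h2 := hpow F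
    rw [hρ, ← Finset.mul_sum, Finset.sum_add_distrib]
    nlinarith
  have hS : Summable (fun g => T g + ρ g) := by
    apply summable_of_sum_le (c := 1) (fun g => add_nonneg (hT0 g) (hρ0 g).le)
    intro F
    rw [Finset.sum_add_distrib]
    have h1 := hTs F
    have h2 := hρs F
    linarith
  set Z : ℝ := ∑' g, (T g + ρ g) with hZ
  have hZ1 : Z ≤ 1 := by
    apply hS.tsum_le_of_sum_le
    intro F
    rw [Finset.sum_add_distrib]
    have h1 := hTs F
    have h2 := hρs F
    linarith
  have hZ0 : 0 < Z := by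
    have h1 := hS.le_tsum (1 : Γ) (fun g _ => add_nonneg (hT0 g) (hρ0 g).le)
    have h2 := hT0 1
    have h3 := hρ0 (1 : Γ)
    linarith
  have hnn : ∀ g, 0 ≤ (T g + ρ g) / Z := fun g => div_nonneg (add_nonneg (hT0 g) (hρ0 g).le) hZ0.le
  let w : Γ → ℝ≥0 := fun g => Real.toNNReal ((T g + ρ g) / Z)
  have hw : ∀ g, (w g : ℝ) = (T g + ρ g) / Z := fun g => Real.coe_toNNReal _ (hnn g)
  let μ : GeneratingMeasure Γ :=
    { mass := w
      hasSum := by
        rw [← NNReal.hasSum_coe]
        have h1 := hS.hasSum.div_const Z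
        rw [← hZ, div_self hZ0.ne'] at h1
        rw [NNReal.coe_one]
        simp only [hw]
        exact h1
      symm := fun g => by
        apply NNReal.coe_injective
        rw [hw, hw, hTi, hρi]
      generates := by
        have h1 : {g : Γ | w g ≠ 0} = Set.univ := by
          ext g
          constructor
          · exact fun _ => Set.mem_univ g
          · intro _ hc
            have h2 : (w g : ℝ) = 0 := by rw [hc]; rfl
            have h3 : 0 < (T g + ρ g) / Z := div_pos (by linarith [hT0 g, hρ0 g]) hZ0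
            rw [hw] at h2
            linarith
        rw [h1, Subgroup.closure_univ] }
  have hμw : ∀ g, (μ.mass g : ℝ) = (T g + ρ g) / Z := hw
  refine ⟨μ, fun lam hlam hzero => ?_⟩
  rw [law_perc] at hzero
  have hP := Q295.Thr.pois_ind (rate μ lam)
  have hLb : Q295.Thr.Lb lam₀ T ((Q295.Thr.pois (rate μ lam)).map Q295.Thr.opn) := by
    intro x a
    rw [Q295.Thr.pois_edge]
    have h1 : rate μ lam s(x, x * a) = lam * μ.mass a := by
      show lam * μ.mass (x⁻¹ * (x * a)) = _
      rw [inv_mul_cancel_left]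
    rw [h1]
    have h2 : ((lam * μ.mass a : ℝ≥0) : ℝ) = lam * ((T a + ρ a) / Z) := by
      rw [NNReal.coe_mul, hμw]
    rw [h2]
    have h3 : T a ≤ (T a + ρ a) / Z := by
      rw [le_div_iff₀ hZ0]
      have h4 := hT0 a
      have h5 := (hρ0 a).le
      nlinarith
    have h6 : lam₀ * T a ≤ lam * ((T a + ρ a) / Z) :=
      mul_le_mul hlam h3 (hT0 a) (by linarith)
    have h7 : Real.exp (-((lam : ℝ) * ((T a + ρ a) / Z))) ≤ Real.exp (-(lam₀ * T a)) :=
      Real.exp_le_exp.2 (by linarith)
    linarith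
  have hsup := Q295.Thr.supercritical hP (q := q) (v := 1) (fun N => by
    obtain ⟨K, hK⟩ := hT N
    exact ⟨K, hK _ hP hLb⟩)
  -- the event is contained in a null set
  obtain ⟨U, hU, hex⟩ := Q295.Thr.exists_exh Γ
  have hset : {ω : Q295.Thr.Conf Γ | (Q295.Thr.Cf ω 1).Infinite} =
      ⋂ N : ℕ, ⋃ n : ℕ, {ω | N ≤ (Q295.Thr.cl ω (U n) {1}).card} := by
    ext ω
    rw [Set.mem_iInter]
    constructor
    · intro h N
      exact Set.mem_iUnion.2 (Q295.Thr.Cf_infinite_sub hU hex h N)
    · intro h hfin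
      obtain ⟨n, hn⟩ := Set.mem_iUnion.1 (h (hfin.toFinset.card + 1))
      have h2 : hfin.toFinset.card + 1 ≤ (Q295.Thr.cl ω (U n) {1}).card := hn
      have h3 : Q295.Thr.cl ω (U n) {1} ⊆ hfin.toFinset := by
        intro y hy
        rw [Set.Finite.mem_toFinset]
        exact Q295.Thr.cl_sub_Cf ω _ 1 (Finset.mem_coe.2 hy)
      have h4 := Finset.card_le_card h3
      omega
  have hmeas : MeasurableSet {ω : Q295.Thr.Conf Γ | (Q295.Thr.Cf ω 1).Infinite} := by
    rw [hset]
    exact MeasurableSet.iInter (fun N => MeasurableSet.iUnion (fun n =>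
      (Q295.Thr.cl_dep (U n) {1} (fun C => N ≤ C.card)).meas))
  rw [Measure.map_apply Q295.Thr.opn_meas hmeas] at hsup
  have h8 : (Q295.Thr.pois (rate μ lam))
      (Q295.Thr.opn ⁻¹' {ω : Q295.Thr.Conf Γ | (Q295.Thr.Cf ω 1).Infinite}) ≤
      law μ lam (Q295.Thr.opn ⁻¹' {ω | ∃ g, (Q295.Thr.Cf ω g).Infinite}) := by
    show law μ lam _ ≤ _
    apply measure_mono
    intro ω hω
    exact ⟨1, hω⟩
  rw [hzero] at h8
  have h9 := hsup.trans h8
  have h10 : 0 < ENNReal.ofReal q := ENNReal.ofReal_pos.2 hq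
  exact absurd (le_antisymm h9 zero_le) h10.ne'

/-- The percolation threshold of every infinite countable group is one. -/
theorem result (Γ : Type*) [Group Γ] [Countable Γ] [Infinite Γ] : threshold Γ = 1 := by
  apply le_antisymm
  · apply le_of_forall_gt
    intro c hc
    obtain ⟨c', h1, h2⟩ := exists_between hc
    have hc' : c' ≠ ⊤ := (h2.trans_le le_top).ne
    lift c' to ℝ≥0 using hc'
    have h3 : (1 : ℝ) < c' := by exact_mod_cast h1
    obtain ⟨μ, hμ⟩ := exists_measure (Γ := Γ) h3
    refine lt_of_le_of_lt ?_ h2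
    refine (iInf_le _ μ).trans ?_
    unfold lambdaC
    apply iSup₂_le
    intro lam hlam
    by_contra hc
    push Not at hc
    have h4 : (c' : ℝ≥0∞) < lam := hc
    have h5 : c' < lam := by exact_mod_cast h4
    exact hμ lam (by exact_mod_cast h5.le) hlam.2
  · exact le_iInf one_le

end Pool.Agent.Results.MP_da416c_pr.ThresholdOne
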